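import Pool.Agent.H62.UN.Targets

set_option autoImplicit false

namespace Pool.Agent.H62.UNT

open Polynomial Pool.Agent.H17.UN Pool.Agent.H62.UN

section

variable {k F : Type} [Field k] [Field F] [Algebra k F]

theorem ai_of {x z : F} (hx : Transcendental k x) (hz : Transcendental (ks k x) z) :
    AlgebraicIndependent k ![x, z] := by
  have hs' : AlgebraicIndependent k
      (fun _ : Unit => (IntermediateField.AdjoinSimple.gen k x : ks k x)) := by
    rw [algebraicIndependent_unique_type_iff]
    have h4 : Transcendental k (algebraMap (ks k x) F (IntermediateField.AdjoinSimple.gen k x)) := by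
      rw [IntermediateField.AdjoinSimple.algebraMap_gen]
      exact hx
    exact (transcendental_algebraMap_iff (algebraMap (ks k x) F).injective).1 h4
  have hτ' : AlgebraicIndependent (ks k x) (fun _ : Unit => z) := by
    rw [algebraicIndependent_unique_type_iff]
    exact hz
  have h5 := hs'.sumElim_comp hτ'
  have h6 := h5.comp (![Sum.inr (), Sum.inl ()] : Fin 2 → Unit ⊕ Unit) (by
    intro i j hij
    fin_cases i <;> fin_cases j
    · rfl
    · exact absurd hij (by simp)
    · exact absurd hij (by simp)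
    · rfl)
  have h7 : (![x, z] : Fin 2 → F) = Sum.elim (fun _ : Unit => z)
      (algebraMap (ks k x) F ∘ fun _ : Unit => IntermediateField.AdjoinSimple.gen k x) ∘
        (![Sum.inr (), Sum.inl ()] : Fin 2 → Unit ⊕ Unit) := by
    funext i
    fin_cases i
    · exact (IntermediateField.AdjoinSimple.algebraMap_gen k x).symm
    · rfl
  rw [h7]
  exact h6

theorem of_ai {x z : F} (h : AlgebraicIndependent k ![x, z]) :
    Transcendental k x ∧ Transcendental (ks k x) z := by
  refine ⟨h.transcendental 0, ?_⟩
  have h1 := h.transcendental_adjoin (s := {0}) (i := 1) (by simp)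
  rw [IntermediateField.transcendental_adjoin_iff]
  have e : (![x, z] '' {0} : Set F) = {x} := by simp
  have e1 : (![x, z] : Fin 2 → F) 1 = z := rfl
  rw [e1] at h1
  rw [e] at h1
  exact h1

theorem gen_of {a b c a' b' c' : F} (h : IntermediateField.adjoin k {a, b, c} = ⊤)
    (ha : a ∈ IntermediateField.adjoin k {a', b', c'})
    (hb : b ∈ IntermediateField.adjoin k {a', b', c'})
    (hc : c ∈ IntermediateField.adjoin k {a', b', c'}) :
    IntermediateField.adjoin k {a', b', c'} = ⊤ := by
  rw [eq_top_iff, ← h, IntermediateField.adjoin_le_iff]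
  intro x hx
  simp only [Set.mem_insert_iff, Set.mem_singleton_iff] at hx
  rcases hx with rfl | rfl | rfl
  · exact ha
  · exact hb
  · exact hc

theorem gens (a b c : F) : a ∈ IntermediateField.adjoin k {a, b, c} ∧
    b ∈ IntermediateField.adjoin k {a, b, c} ∧ c ∈ IntermediateField.adjoin k {a, b, c} := by
  refine ⟨?_, ?_, ?_⟩ <;> apply IntermediateField.subset_adjoin <;> simp

theorem flip {P Q : k[X]} {x y z : F} (h : Chart P Q x y z) : Chart Q P x (y / z) z⁻¹ := by
  obtain ⟨hx, hz⟩ := of_ai h.ind
  have hz0 : z ≠ 0 := by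
    rintro rfl
    exact hz isAlgebraic_zero
  refine ⟨?_, ai_of hx ?_, ?_, ?_⟩
  · rw [div_pow, h.eq]
    field_simp
    ring
  · intro h0
    exact hz (IsAlgebraic.inv_iff.mp h0)
  · obtain ⟨g1, g2, g3⟩ := gens (k := k) x (y / z) z⁻¹
    have hzm : z ∈ IntermediateField.adjoin k {x, y / z, z⁻¹} := by
      have := inv_mem g3
      rwa [inv_inv] at this
    refine gen_of h.gen g1 ?_ hzm
    have := mul_mem g2 hzm
    rwa [div_mul_cancel₀ _ hz0] at this
  · rw [mul_comm]
    exact h.sep

theorem refl_aeval {s : F} (hs : s ≠ 0) (N : ℕ) (f : k[X]) (hf : f.natDegree ≤ N) :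
    aeval s⁻¹ (f.reflect N) * s ^ N = aeval s f := by
  letI : Invertible s := invertibleOfNonzero hs
  have h1 := eval₂_reflect_mul_pow (algebraMap k F) s N f hf
  rw [invOf_eq_inv] at h1
  exact h1

end

theorem pf_CHT : T_CHT := by
  intro hSRF k F _ _ _ _ P Q s y z h
  have c0 : Chart P Q s y z := ⟨h.eq, h.ind, h.gen, h.sep⟩
  obtain ⟨hx, hz⟩ := of_ai h.ind
  have hs0 : s ≠ 0 := by
    rintro rfl
    exact hx isAlgebraic_zero
  have hz0 : z ≠ 0 := by
    rintro rfl
    exact hz isAlgebraic_zero
  have hks : ks k s⁻¹ = ks k s := by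
    apply le_antisymm
    · rw [IntermediateField.adjoin_simple_le_iff]
      exact inv_mem (IntermediateField.mem_adjoin_simple_self k s)
    · rw [IntermediateField.adjoin_simple_le_iff]
      have := inv_mem (IntermediateField.mem_adjoin_simple_self k s⁻¹)
      rwa [inv_inv] at this
  have c2 : Chart (P.reflect 4) (Q.reflect 2) s⁻¹ (y / s ^ 2) (z / s) := by
    refine ⟨?_, ai_of ?_ ?_, ?_, hSRF k P Q h.dP h.dQ h.sep⟩
    · have e1 := refl_aeval (k := k) hs0 4 P (by rw [h.dP]; norm_num)
      have e2 := refl_aeval (k := k) hs0 2 Q (by rw [h.dQ])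
      have e3 := h.eq
      rw [← e1, ← e2] at e3
      rw [div_pow, e3]
      field_simp
    · intro h0
      exact hx (IsAlgebraic.inv_iff.mp h0)
    · rw [hks]
      intro h0
      have h1 : IsAlgebraic (ks k s) s :=
        isAlgebraic_algebraMap (⟨s, IntermediateField.mem_adjoin_simple_self k s⟩ : ks k s)
      have h2 := h0.mul h1
      rw [div_mul_cancel₀ _ hs0] at h2
      exact hz h2
    · obtain ⟨g1, g2, g3⟩ := gens (k := k) s⁻¹ (y / s ^ 2) (z / s)
      have hsm : s ∈ IntermediateField.adjoin k {s⁻¹, y / s ^ 2, z / s} := by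
        have := inv_mem g1
        rwa [inv_inv] at this
      refine gen_of h.gen hsm ?_ ?_
      · have := mul_mem g2 (pow_mem hsm 2)
        rwa [div_mul_cancel₀ _ (pow_ne_zero 2 hs0)] at this
      · have := mul_mem g3 hsm
        rwa [div_mul_cancel₀ _ hs0] at this
  have c3 := flip c2
  have e1 : y / s ^ 2 / (z / s) = y / (s * z) := by field_simp
  have e2 : (z / s)⁻¹ = s / z := inv_div z s
  rw [e1, e2] at c3
  exact ⟨c0, flip c0, c2, c3⟩

end Pool.Agent.H62.UNT
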