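import Pool.Agent.H55.UNT.DG2

set_option autoImplicit false

namespace Pool.Agent.H62.UNT

open Polynomial Pool.Agent.H17.UN Pool.Agent.H62.UN Pool.Agent.H55.UNT

section

variable {k : Type} [Field k] (P Q : k[X])

theorem of_map_C (p : k[X]) : (AdjoinRoot.of (X ^ 2 - C (dp P Q) : k[X][X][X]) (p.map C)) =
    aeval (zC P Q) p := by
  induction p using Polynomial.induction_on' with
  | add p q hp hq => rw [Polynomial.map_add, map_add, hp, hq, map_add]
  | monomial n c =>
    rw [map_monomial, aeval_monomial, ← C_mul_X_pow_eq_monomial, map_mul, of_CC_DG2, map_pow]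
    rfl

theorem xsub (a : k) : (AdjoinRoot.of (X ^ 2 - C (dp P Q) : k[X][X][X]) (C (X - C a))) =
    xC P Q - algebraMap k (CR P Q) a := by
  rw [map_sub, map_sub, of_CC_DG2]
  rfl

theorem root_sq : yC P Q ^ 2 = AdjoinRoot.of (X ^ 2 - C (dp P Q) : k[X][X][X]) (dp P Q) := by
  have h := AdjoinRoot.eval₂_root (X ^ 2 - C (dp P Q) : k[X][X][X])
  rw [eval₂_sub, eval₂_pow, eval₂_X, eval₂_C, sub_eq_zero] at h
  exact h

end

theorem pf_DEG : T_DEG := by
  intro k _ _ P Q a l hl
  constructor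
  · obtain ⟨P1, hP1⟩ := X_sub_C_dvd_sub_C_eval (p := P) (a := a)
    obtain ⟨Q1, hQ1⟩ := X_sub_C_dvd_sub_C_eval (p := Q) (a := a)
    refine ⟨AdjoinRoot.of _ (C P1) + AdjoinRoot.of _ (C Q1) * zC P Q ^ 2, ?_⟩
    have e1 : aeval (zC P Q) l ^ 2 = algebraMap k (CR P Q) (P.eval a) +
        algebraMap k (CR P Q) (Q.eval a) * zC P Q ^ 2 := by
      rw [← map_pow, hl, map_add, map_mul, map_pow, aeval_C, aeval_C, aeval_X]
    have hPe : P = C (P.eval a) + (X - C a) * P1 := by rw [← hP1]; ring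
    have hQe : Q = C (Q.eval a) + (X - C a) * Q1 := by rw [← hQ1]; ring
    have e2 : AdjoinRoot.of (X ^ 2 - C (dp P Q) : k[X][X][X]) (C P) =
        algebraMap k (CR P Q) (P.eval a) + (xC P Q - algebraMap k (CR P Q) a) *
          AdjoinRoot.of _ (C P1) := by
      conv_lhs => rw [show (C P : k[X][X]) = C (C (P.eval a)) + C (X - C a) * C P1 by
        rw [← map_mul, ← map_add, ← hPe]]
      rw [map_add, map_mul, of_CC_DG2, xsub]
    have e3 : AdjoinRoot.of (X ^ 2 - C (dp P Q) : k[X][X][X]) (C Q) =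
        algebraMap k (CR P Q) (Q.eval a) + (xC P Q - algebraMap k (CR P Q) a) *
          AdjoinRoot.of _ (C Q1) := by
      conv_lhs => rw [show (C Q : k[X][X]) = C (C (Q.eval a)) + C (X - C a) * C Q1 by
        rw [← map_mul, ← map_add, ← hQe]]
      rw [map_add, map_mul, of_CC_DG2, xsub]
    have e4 : AdjoinRoot.of (X ^ 2 - C (dp P Q) : k[X][X][X]) (dp P Q) =
        AdjoinRoot.of (X ^ 2 - C (dp P Q) : k[X][X][X]) (C P) +
        AdjoinRoot.of (X ^ 2 - C (dp P Q) : k[X][X][X]) (C Q) * zC P Q ^ 2 := by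
      have e5 : AdjoinRoot.of (X ^ 2 - C (dp P Q) : k[X][X][X]) (C P + C Q * X ^ 2) =
          AdjoinRoot.of (X ^ 2 - C (dp P Q) : k[X][X][X]) (C P) +
          AdjoinRoot.of (X ^ 2 - C (dp P Q) : k[X][X][X]) (C Q) * zC P Q ^ 2 := by
        rw [map_add, map_mul, map_pow]
        rfl
      exact e5
    rw [root_sq, e1, e4, e2, e3]
    ring
  · let i : k[X][X] →ₐ[k] k[X] := mapAlgHom (aeval a)
    have hi : ∀ f : k[X][X], i f = f.map (evalRingHom a) := by
      intro f
      rfl
    have hrel : (X ^ 2 - C (dp P Q) : k[X][X][X]).eval₂ (i : k[X][X] →+* k[X]) l = 0 := by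
      rw [eval₂_sub, eval₂_pow, eval₂_X, eval₂_C, hl, sub_eq_zero]
      change _ = i (dp P Q)
      rw [hi]
      unfold dp
      simp
    let φ : CR P Q →ₐ[k] k[X] := AdjoinRoot.liftAlgHom _ i l hrel
    have hφ1 : ∀ f : k[X][X], φ (AdjoinRoot.of _ f) = f.map (evalRingHom a) := by
      intro f
      exact AdjoinRoot.liftAlgHom_of _ _ _ _ f
    have hφ2 : φ (yC P Q) = l := AdjoinRoot.liftAlgHom_root _ _ _ _
    refine ⟨φ, ?_, ?_, hφ2, ?_⟩
    · change φ (AdjoinRoot.of _ (C X)) = _
      rw [hφ1]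
      simp
    · change φ (AdjoinRoot.of _ X) = _
      rw [hφ1]
      simp
    · intro b hb
      obtain ⟨al, be, rfl⟩ := rep_DG2 P Q b
      rw [map_add, map_mul, hφ1, hφ1, hφ2] at hb
      have hdec : ∀ f : k[X][X], ∃ f1 : k[X][X], AdjoinRoot.of (X ^ 2 - C (dp P Q) : k[X][X][X]) f =
          aeval (zC P Q) (f.map (evalRingHom a)) +
          (xC P Q - algebraMap k (CR P Q) a) * AdjoinRoot.of _ f1 := by
        intro f
        have h1 : (f - (f.map (evalRingHom a)).map C).map (evalRingHom a) = 0 := by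
          rw [Polynomial.map_sub, Polynomial.map_map]
          have : (evalRingHom a).comp (C : k →+* k[X]) = RingHom.id k := by
            ext c
            simp
          rw [this, Polynomial.map_id, sub_self]
        obtain ⟨f1, hf1⟩ := dvd_DG2 a _ h1
        refine ⟨f1, ?_⟩
        have h2 : f = (f.map (evalRingHom a)).map C + C (X - C a) * f1 := by
          rw [← hf1]
          ring
        conv_lhs => rw [h2]
        rw [map_add, map_mul, xsub, of_map_C]
      obtain ⟨al1, h1⟩ := hdec al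
      obtain ⟨be1, h2⟩ := hdec be
      have h3 : aeval (zC P Q) (al.map (evalRingHom a)) =
          -(aeval (zC P Q) (be.map (evalRingHom a)) * aeval (zC P Q) l) := by
        rw [← map_mul, ← map_neg]
        congr 1
        linear_combination hb
      refine ⟨AdjoinRoot.of _ al1 + AdjoinRoot.of _ be1 * yC P Q,
        aeval (zC P Q) (be.map (evalRingHom a)), ?_⟩
      rw [h1, h2, h3]
      ring

end Pool.Agent.H62.UNT
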