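import Pool.Agent.H62.UN.Targets

set_option autoImplicit false

namespace Pool.Agent.H62.UNT

open Polynomial Pool.Agent.H17.UN Pool.Agent.H62.UN

theorem pf_FSU : F_FSU := by
  intro cht noe fin k F _ _ _ _ _ P Q s y z h f hf
  obtain ⟨c0, c1, c2, c3⟩ := cht k F P Q s y z h
  have hi : ∀ i : Fin 4, {o : F → ℤ | IsVal o ∧ Ctr (ch k s y z i) o ∧ o f ≠ 0}.Finite := by
    intro i
    fin_cases i
    · obtain ⟨h1, h2⟩ := noe k F s y z c0.gen
      exact fin k F _ h1 h2 f hf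
    · obtain ⟨h1, h2⟩ := noe k F s (y / z) z⁻¹ c1.gen
      exact fin k F _ h1 h2 f hf
    · obtain ⟨h1, h2⟩ := noe k F s⁻¹ (y / s ^ 2) (z / s) c2.gen
      exact fin k F _ h1 h2 f hf
    · obtain ⟨h1, h2⟩ := noe k F s⁻¹ (y / (s * z)) (s / z) c3.gen
      exact fin k F _ h1 h2 f hf
  have hU : (⋃ i : Fin 4, {o : F → ℤ | IsVal o ∧ Ctr (ch k s y z i) o ∧ o f ≠ 0}).Finite :=
    Set.finite_iUnion hi
  refine Set.Finite.of_injOn (f := fun v : PrimeDivisor (ch k s y z) => v.ord) ?_ ?_ hU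
  · intro v hv
    obtain ⟨i, hc⟩ := pd_ctr v
    exact Set.mem_iUnion.mpr ⟨i, pd_val v, hc, hv⟩
  · intro v _ v' _ hvv
    exact pd_ext hvv

end Pool.Agent.H62.UNT
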