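import Pool.Agent.H62.UN.Targets

set_option autoImplicit false

namespace Pool.Agent.H62.UNT

open Polynomial Pool.Agent.H17.UN Pool.Agent.H62.UN

section

variable {k F : Type} [Field k] [Field F] [Algebra k F]

/-- The localisation of `A` at `a`. -/
def lcz (A : Subalgebra k F) (a : F) (ha : a ∈ A) (hne : a ≠ 0) : Subalgebra k F where
  carrier := {x | ∃ b ∈ A, ∃ r : ℕ, x = b / a ^ r}
  mul_mem' := by
    rintro x y ⟨b, hb, r, rfl⟩ ⟨c, hc, t, rfl⟩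
    refine ⟨b * c, mul_mem hb hc, r + t, ?_⟩
    rw [pow_add, div_mul_div_comm]
  add_mem' := by
    rintro x y ⟨b, hb, r, rfl⟩ ⟨c, hc, t, rfl⟩
    refine ⟨b * a ^ t + a ^ r * c, add_mem (mul_mem hb (pow_mem ha t))
      (mul_mem (pow_mem ha r) hc), r + t, ?_⟩
    rw [pow_add, div_add_div _ _ (pow_ne_zero r hne) (pow_ne_zero t hne)]
  algebraMap_mem' := fun c => ⟨algebraMap k F c, A.algebraMap_mem c, 0, by simp⟩

theorem glue_aux (A A' : Subalgebra k F) (S' : Set F) (hA' : A' = Algebra.adjoin k S') (a : F)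
    (ha : a ∈ A) (hne : a ≠ 0) (hinv : a⁻¹ ∈ A ⊔ A')
    (hgen : ∀ g ∈ S', ∃ b ∈ A, ∃ r : ℕ, g = b / a ^ r) :
    ∃ a ∈ A, a ≠ 0 ∧ ∀ x : F, x ∈ A ⊔ A' ↔ ∃ b ∈ A, ∃ r : ℕ, x = b / a ^ r := by
  refine ⟨a, ha, hne, fun x => ⟨fun hx => ?_, ?_⟩⟩
  · have h1 : A ⊔ A' ≤ lcz A a ha hne := by
      refine sup_le (fun b hb => ⟨b, hb, 0, by simp⟩) ?_
      rw [hA', Algebra.adjoin_le_iff]
      exact fun g hg => hgen g hg
    exact h1 hx
  · rintro ⟨b, hb, r, rfl⟩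
    rw [div_eq_mul_inv, ← inv_pow]
    exact mul_mem ((le_sup_left : A ≤ A ⊔ A') hb) (pow_mem hinv r)

theorem mem3 (a b c x : F) (h : x = a ∨ x = b ∨ x = c) : x ∈ Algebra.adjoin k {a, b, c} := by
  apply Algebra.subset_adjoin
  simpa using h

end

theorem pf_GLU : T_GLU := by
  intro k F _ _ _ P Q s y z h
  have hs : s ≠ 0 := by
    have h1 : Transcendental k s := h.ind.transcendental 0
    intro h0
    rw [h0] at h1
    exact h1 isAlgebraic_zero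
  have hz : z ≠ 0 := by
    have h1 : Transcendental k z := h.ind.transcendental 1
    intro h0
    rw [h0] at h1
    exact h1 isAlgebraic_zero
  have hself : ∀ A : Subalgebra k F, ∃ a ∈ A, a ≠ 0 ∧ ∀ x : F, x ∈ A ⊔ A ↔
      ∃ b ∈ A, ∃ r : ℕ, x = b / a ^ r := by
    intro A
    refine ⟨1, A.one_mem, one_ne_zero, fun x => ?_⟩
    rw [sup_idem]
    refine ⟨fun hx => ⟨x, hx, 0, by simp⟩, ?_⟩
    rintro ⟨b, hb, r, rfl⟩
    simpa using hb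
  have c0 : ch k s y z 0 = Algebra.adjoin k {s, y, z} := rfl
  have c1 : ch k s y z 1 = Algebra.adjoin k {s, y / z, z⁻¹} := rfl
  have c2 : ch k s y z 2 = Algebra.adjoin k {s⁻¹, y / s ^ 2, z / s} := rfl
  have c3 : ch k s y z 3 = Algebra.adjoin k {s⁻¹, y / (s * z), s / z} := rfl
  have g01 : s ∈ ch k s y z 0 := mem3 _ _ _ _ (Or.inl rfl)
  have g02 : y ∈ ch k s y z 0 := mem3 _ _ _ _ (Or.inr (Or.inl rfl))
  have g03 : z ∈ ch k s y z 0 := mem3 _ _ _ _ (Or.inr (Or.inr rfl))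
  have g11 : s ∈ ch k s y z 1 := mem3 _ _ _ _ (Or.inl rfl)
  have g12 : y / z ∈ ch k s y z 1 := mem3 _ _ _ _ (Or.inr (Or.inl rfl))
  have g13 : z⁻¹ ∈ ch k s y z 1 := mem3 _ _ _ _ (Or.inr (Or.inr rfl))
  have g21 : s⁻¹ ∈ ch k s y z 2 := mem3 _ _ _ _ (Or.inl rfl)
  have g22 : y / s ^ 2 ∈ ch k s y z 2 := mem3 _ _ _ _ (Or.inr (Or.inl rfl))
  have g23 : z / s ∈ ch k s y z 2 := mem3 _ _ _ _ (Or.inr (Or.inr rfl))
  have g31 : s⁻¹ ∈ ch k s y z 3 := mem3 _ _ _ _ (Or.inl rfl)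
  have g32 : y / (s * z) ∈ ch k s y z 3 := mem3 _ _ _ _ (Or.inr (Or.inl rfl))
  have g33 : s / z ∈ ch k s y z 3 := mem3 _ _ _ _ (Or.inr (Or.inr rfl))
  have key : ∀ (i j : Fin 4) (p q r : F), ch k s y z j = Algebra.adjoin k {p, q, r} → ∀ a : F,
      a ∈ ch k s y z i → a ≠ 0 → a⁻¹ ∈ ch k s y z j →
      (∃ b ∈ ch k s y z i, ∃ m : ℕ, p = b / a ^ m) →
      (∃ b ∈ ch k s y z i, ∃ m : ℕ, q = b / a ^ m) →
      (∃ b ∈ ch k s y z i, ∃ m : ℕ, r = b / a ^ m) →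
      ∃ a ∈ ch k s y z i, a ≠ 0 ∧ ∀ x : F, x ∈ ch k s y z i ⊔ ch k s y z j ↔
        ∃ b ∈ ch k s y z i, ∃ m : ℕ, x = b / a ^ m := by
    intro i j p q r hj a ha hne hinv h1 h2 h3
    refine glue_aux _ _ _ hj a ha hne
      ((le_sup_right : ch k s y z j ≤ ch k s y z i ⊔ ch k s y z j) hinv) ?_
    intro g hg
    simp only [Set.mem_insert_iff, Set.mem_singleton_iff] at hg
    rcases hg with rfl | rfl | rfl
    · exact h1
    · exact h2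
    · exact h3
  intro i j
  fin_cases i <;> fin_cases j
  · exact hself _
  · exact key 0 1 _ _ _ c1 z g03 hz g13 ⟨s, g01, 0, by simp⟩ ⟨y, g02, 1, by simp⟩
      ⟨1, one_mem _, 1, by simp⟩
  · exact key 0 2 _ _ _ c2 s g01 hs g21 ⟨1, one_mem _, 1, by simp⟩ ⟨y, g02, 2, rfl⟩
      ⟨z, g03, 1, by simp⟩
  · refine key 0 3 _ _ _ c3 (s * z) (mul_mem g01 g03) (mul_ne_zero hs hz) ?_
      ⟨z, g03, 1, by field_simp⟩ ⟨y, g02, 1, by simp⟩ ⟨s * s, mul_mem g01 g01, 1, by field_simp⟩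
    have e : (s * z)⁻¹ = s⁻¹ * (s⁻¹ * (s / z)) := by field_simp
    rw [e]
    exact mul_mem g31 (mul_mem g31 g33)
  · refine key 1 0 _ _ _ c0 z⁻¹ g13 (inv_ne_zero hz) ?_ ⟨s, g11, 0, by simp⟩
      ⟨y / z, g12, 1, by field_simp⟩ ⟨1, one_mem _, 1, by simp⟩
    rw [inv_inv]
    exact g03
  · exact hself _
  · refine key 1 2 _ _ _ c2 (s * z⁻¹) (mul_mem g11 g13) (mul_ne_zero hs (inv_ne_zero hz)) ?_
      ⟨z⁻¹, g13, 1, by field_simp⟩ ⟨y / z * z⁻¹, mul_mem g12 g13, 2, by field_simp⟩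
      ⟨1, one_mem _, 1, by field_simp⟩
    have e : (s * z⁻¹)⁻¹ = z / s := by field_simp
    rw [e]
    exact g23
  · exact key 1 3 _ _ _ c3 s g11 hs g31 ⟨1, one_mem _, 1, by simp⟩
      ⟨y / z, g12, 1, by field_simp⟩ ⟨s * z⁻¹, mul_mem g11 g13, 0, by field_simp⟩
  · refine key 2 0 _ _ _ c0 s⁻¹ g21 (inv_ne_zero hs) ?_ ⟨1, one_mem _, 1, by simp⟩
      ⟨y / s ^ 2, g22, 2, by field_simp⟩ ⟨z / s, g23, 1, by field_simp⟩
    rw [inv_inv]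
    exact g01
  · refine key 2 1 _ _ _ c1 (s⁻¹ * (z / s)) (mul_mem g21 g23)
      (mul_ne_zero (inv_ne_zero hs) (div_ne_zero hz hs)) ?_
      ⟨z / s, g23, 1, by field_simp⟩ ⟨y / s ^ 2, g22, 1, by field_simp⟩
      ⟨s⁻¹ * s⁻¹, mul_mem g21 g21, 1, by field_simp⟩
    have e : (s⁻¹ * (z / s))⁻¹ = s * s * z⁻¹ := by field_simp
    rw [e]
    exact mul_mem (mul_mem g11 g11) g13
  · exact hself _
  · refine key 2 3 _ _ _ c3 (z / s) g23 (div_ne_zero hz hs) ?_ ⟨s⁻¹, g21, 0, by simp⟩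
      ⟨y / s ^ 2, g22, 1, by field_simp⟩ ⟨1, one_mem _, 1, by field_simp⟩
    rw [inv_div]
    exact g33
  · refine key 3 0 _ _ _ c0 (s⁻¹ * (s / z)) (mul_mem g31 g33)
      (mul_ne_zero (inv_ne_zero hs) (div_ne_zero hs hz)) ?_
      ⟨s / z, g33, 1, by field_simp⟩ ⟨y / (s * z) * (s / z), mul_mem g32 g33, 2, by field_simp⟩
      ⟨1, one_mem _, 1, by field_simp⟩
    have e : (s⁻¹ * (s / z))⁻¹ = z := by field_simp
    rw [e]
    exact g03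
  · refine key 3 1 _ _ _ c1 s⁻¹ g31 (inv_ne_zero hs) ?_ ⟨1, one_mem _, 1, by simp⟩
      ⟨y / (s * z), g32, 1, by field_simp⟩ ⟨s⁻¹ * (s / z), mul_mem g31 g33, 0, by field_simp⟩
    rw [inv_inv]
    exact g11
  · refine key 3 2 _ _ _ c2 (s / z) g33 (div_ne_zero hs hz) ?_ ⟨s⁻¹, g31, 0, by simp⟩
      ⟨y / (s * z), g32, 1, by field_simp⟩ ⟨1, one_mem _, 1, by field_simp⟩
    rw [inv_div]
    exact g23
  · exact hself _

end Pool.Agent.H62.UNT
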