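import Pool.Agent.H62.UNT.HUN

set_option autoImplicit false

namespace Pool.Agent.H62.UNT

open Polynomial Pool.Agent.H17.UN Pool.Agent.H62.UN

theorem pl_dec {κ : Type} [Field κ] {π : κ[X]} (hπ : Irreducible π) {f : κ[X]} (hf : f ≠ 0) :
    ∃ (n : ℕ) (g : κ[X]), f = π ^ n * g ∧ ¬ π ∣ g := by
  obtain ⟨g, h1, h2⟩ :=
    (FiniteMultiplicity.of_not_isUnit hπ.not_isUnit hf).exists_eq_pow_mul_and_not_dvd
  exact ⟨_, g, h1, h2⟩

theorem pl_nonneg {κ E : Type} [Field κ] [Field E] [Algebra κ E] {τ : E} {π : κ[X]}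
    {o : E → ℤ} (hπ : Irreducible π) (h : IsPl τ π o) {f : κ[X]} (hf : f ≠ 0) :
    0 ≤ o (aeval τ f) := by
  obtain ⟨n, g, h1, h2⟩ := pl_dec hπ hf
  rw [h1, h n g h2]
  positivity

theorem pl_zero {κ E : Type} [Field κ] [Field E] [Algebra κ E] {τ : E} {π : κ[X]}
    {o : E → ℤ} (h : IsPl τ π o) {f : κ[X]} (hf : ¬ π ∣ f) : o (aeval τ f) = 0 := by
  have := h 0 f hf
  simpa using this

theorem pl_pos {κ E : Type} [Field κ] [Field E] [Algebra κ E] {τ : E} {π : κ[X]}
    {o : E → ℤ} (hπ : Irreducible π) (h : IsPl τ π o) {f : κ[X]} (hf : f ≠ 0) (hd : π ∣ f) :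
    0 < o (aeval τ f) := by
  obtain ⟨n, g, h1, h2⟩ := pl_dec hπ hf
  rw [h1, h n g h2]
  rcases Nat.eq_zero_or_pos n with h3 | h3
  · rw [h3, pow_zero, one_mul] at h1
    rw [h1] at hd
    exact absurd hd h2
  · exact_mod_cast h3

theorem pf_HDV : F_HDV := by
  intro ksf hcl hex hun hrd nrm k F _ _ _ _ _ P Q s y z h D1 hS
  obtain ⟨τ, tr, gen, inf⟩ := nrm k F P Q s y z h D1 hS
  obtain ⟨hT, hEx⟩ := hrd k F P Q s y z h
  obtain ⟨fr, uPl, uInf⟩ := hun (ks k s) F τ tr gen
  have hts : Transcendental k s := h.ind.transcendental 0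
  have hne : ∀ f : (ks k s)[X], f ≠ 0 → aeval τ f ≠ 0 := fun f hf h0 =>
    hf ((transcendental_iff.mp tr) f h0)
  have key : ∀ v : PrimeDivisor (ch k s y z), Hor v → v ≠ D1 →
      ∃ π : (ks k s)[X], π.Monic ∧ Irreducible π ∧ IsPl τ π v.ord := by
    intro v hv hvD
    rcases hcl (ks k s) F τ tr gen v.ord (pd_val v) (fun c => hT v hv c) with h1 | h1
    · exact h1
    · exact absurd (pd_ext (uInf v.ord D1.ord (pd_val v) (pd_val D1) h1 inf)) hvD
  have hDτ : D1.ord τ = -1 := by
    have := inf X X_ne_zero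
    rw [aeval_X, natDegree_X] at this
    simpa using this
  constructor
  · intro v hv
    by_cases hvD : v = D1
    · refine ⟨1, 1, one_ne_zero, fun _ => rfl, fun h0 => absurd hvD h0, ?_⟩
      intro v' hv' _ _
      have := hT v' hv' 1
      simpa using this
    · obtain ⟨π, hm, hπ, hpl⟩ := key v hv hvD
      refine ⟨aeval τ π, π.natDegree, hne π hπ.ne_zero, ?_, ?_, ?_⟩
      · intro hSv
        have h0 : 0 ≤ v.ord τ := by
          have := pl_nonneg hπ hpl (X_ne_zero)
          rwa [aeval_X] at this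
        obtain ⟨a, b, hb, hab⟩ := hSv.2 τ h0
        have hcm : aeval s a / aeval s b ∈ ks k s := by
          refine div_mem ?_ ?_
          · exact IntermediateField.algebra_adjoin_le_adjoin k {s} (aeval_mem_adjoin_singleton k s)
          · exact IntermediateField.algebra_adjoin_le_adjoin k {s} (aeval_mem_adjoin_singleton k s)
        have hpos : 0 < v.ord (τ - aeval s a / aeval s b) := by
          rcases hab with h1 | h1
          · exfalso
            apply tr
            have h2 : τ = algebraMap (ks k s) F ⟨_, hcm⟩ := h1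
            rw [h2]
            exact isAlgebraic_algebraMap _
          · exact h1
        have h3 : τ - aeval s a / aeval s b =
            aeval τ (X - C (⟨aeval s a / aeval s b, hcm⟩ : ks k s)) := by
          rw [map_sub, aeval_X, aeval_C]
          rfl
        rw [h3] at hpos
        have h4 : π ∣ X - C (⟨aeval s a / aeval s b, hcm⟩ : ks k s) := by
          by_contra h5
          rw [pl_zero hpl h5] at hpos
          exact lt_irrefl _ hpos
        have h5 := natDegree_le_of_dvd h4 (X_sub_C_ne_zero _)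
        rw [natDegree_X_sub_C] at h5
        have h6 := hπ.natDegree_pos
        have h7 : π.natDegree = 1 := le_antisymm h5 h6
        exact_mod_cast h7
      · intro _
        constructor
        · have h1 := hpl 1 1 (fun h0 => hπ.not_isUnit (isUnit_of_dvd_one h0))
          rw [pow_one, mul_one] at h1
          exact_mod_cast h1
        · exact inf π hπ.ne_zero
      · intro v' hv' hvv hvD'
        obtain ⟨π', hm', hπ', hpl'⟩ := key v' hv' hvD'
        apply pl_zero hpl'
        intro hd
        have h1 : π' = π := eq_of_monic_of_associated hm' hm (hπ'.associated_of_dvd hπ hd)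
        rw [h1] at hpl'
        exact hvv (pd_ext (uPl π v'.ord v.ord hπ (pd_val v') (pd_val v) hpl' hpl))
  · intro f hf hall
    obtain ⟨g, q, hcop, hq, hg0, hfe⟩ := fr f hf
    have hvd : ∀ π : (ks k s)[X], π.Monic → Irreducible π →
        ∃ v : PrimeDivisor (ch k s y z), IsPl τ π v.ord ∧ v.ord f = 0 := by
      intro π hm hπ
      obtain ⟨o, ho, hpl⟩ := (hex (ks k s) F τ tr gen).1 π hm hπ
      have htr : Triv (k := k) s o := by
        intro c
        by_cases hc : c = 0
        · rw [hc]
          exact ho.zero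
        · have h1 : ¬ π ∣ C c := by
            intro hd
            have h2 := natDegree_le_of_dvd hd (C_ne_zero.mpr hc)
            rw [natDegree_C] at h2
            have h3 := hπ.natDegree_pos
            omega
          have h2 := pl_zero hpl h1
          rw [aeval_C] at h2
          exact h2
      obtain ⟨v, hvo, hv⟩ := hEx o ho htr
      refine ⟨v, by rw [hvo]; exact hpl, hall v hv ?_⟩
      rintro rfl
      have h1 := pl_nonneg hπ hpl (X_ne_zero)
      rw [aeval_X, ← hvo, hDτ] at h1
      omega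
    have hordf : ∀ v : PrimeDivisor (ch k s y z), v.ord f =
        v.ord (aeval τ g) - v.ord (aeval τ q) := by
      intro v
      rw [hfe]
      exact val_div (pd_val v) (hne g hg0) (hne q hq.ne_zero)
    have hndvd : ∀ π : (ks k s)[X], Irreducible π → π ∣ g → π ∣ q → False := by
      intro π hπ h1 h2
      exact hπ.not_isUnit (hcop.isUnit_of_dvd' h1 h2)
    have hgu : IsUnit g := by
      by_contra hgu
      obtain ⟨π, hm, hπ, hd⟩ := exists_monic_irreducible_factor g hgu
      obtain ⟨v, hpl, h0⟩ := hvd π hm hπ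
      rw [hordf, pl_zero hpl (fun h1 => hndvd π hπ hd h1)] at h0
      have := pl_pos hπ hpl hg0 hd
      omega
    have hqu : IsUnit q := by
      by_contra hqu
      obtain ⟨π, hm, hπ, hd⟩ := exists_monic_irreducible_factor q hqu
      obtain ⟨v, hpl, h0⟩ := hvd π hm hπ
      rw [hordf, pl_zero hpl (fun h1 => hndvd π hπ h1 hd)] at h0
      have := pl_pos hπ hpl hq.ne_zero hd
      omega
    have hq1 : q = 1 := hq.eq_one_of_isUnit hqu
    obtain ⟨c, -, hc⟩ := Polynomial.isUnit_iff.mp hgu
    obtain ⟨a, b, hb, hb', hab⟩ := (ksf k F s hts).1 c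
    have hfc : f = (c : F) := by
      rw [hfe, hq1, map_one, div_one, ← hc, aeval_C]
      rfl
    refine ⟨a, b, ?_, hb, hfc.trans hab⟩
    rintro rfl
    rw [map_zero, zero_div] at hab
    exact hf (hfc.trans hab)

end Pool.Agent.H62.UNT
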