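import Pool.Agent.H62.UN.Targets

set_option autoImplicit false

namespace Pool.Agent.H62.UNT

open Polynomial Pool.Agent.H17.UN Pool.Agent.H62.UN

theorem val_div {E : Type} [Field E] {o : E → ℤ} (ho : IsVal o) {x y : E} (hx : x ≠ 0)
    (hy : y ≠ 0) : o (x / y) = o x - o y := by
  have h1 := ho.mul (x / y) y (div_ne_zero hx hy) hy
  rw [div_mul_cancel₀ x hy] at h1
  omega

theorem frac_form {κ E : Type} [Field κ] [Field E] [Algebra κ E] (τ : E)
    (ht : Transcendental κ τ) (hg : IntermediateField.adjoin κ {τ} = ⊤) (x : E) (hx : x ≠ 0) :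
    ∃ g h : κ[X], IsCoprime g h ∧ h.Monic ∧ g ≠ 0 ∧ x = aeval τ g / aeval τ h := by
  have h1 : x ∈ IntermediateField.adjoin κ {τ} := by rw [hg]; trivial
  rw [IntermediateField.mem_adjoin_simple_iff] at h1
  obtain ⟨r, s, hrs⟩ := h1
  have hs : s ≠ 0 := by
    rintro rfl
    rw [map_zero, div_zero] at hrs
    exact hx hrs
  have hr : r ≠ 0 := by
    rintro rfl
    rw [map_zero, zero_div] at hrs
    exact hx hrs
  have hne : ∀ f : κ[X], f ≠ 0 → aeval τ f ≠ 0 := fun f hf h0 =>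
    hf ((transcendental_iff.mp ht) f h0)
  classical
  letI : GCDMonoid κ[X] := EuclideanDomain.gcdMonoid κ[X]
  have hc := isCoprime_div_gcd_div_gcd (p := r) (q := s) hs
  set d := GCDMonoid.gcd r s with hd
  have hd0 : d ≠ 0 := by
    intro h0
    rw [hd, gcd_eq_zero_iff] at h0
    exact hs h0.2
  have hr1 : r = d * (r / d) := (EuclideanDomain.mul_div_cancel' hd0 (gcd_dvd_left r s)).symm
  have hs1 : s = d * (s / d) := (EuclideanDomain.mul_div_cancel' hd0 (gcd_dvd_right r s)).symm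
  set r1 := r / d
  set s1 := s / d
  have hr10 : r1 ≠ 0 := by
    intro h0
    rw [h0, mul_zero] at hr1
    exact hr hr1
  have hs10 : s1 ≠ 0 := by
    intro h0
    rw [h0, mul_zero] at hs1
    exact hs hs1
  have hl : s1.leadingCoeff ≠ 0 := leadingCoeff_ne_zero.mpr hs10
  have hu : IsUnit (C s1.leadingCoeff⁻¹ : κ[X]) := isUnit_C.mpr (IsUnit.mk0 _ (inv_ne_zero hl))
  refine ⟨C s1.leadingCoeff⁻¹ * r1, C s1.leadingCoeff⁻¹ * s1, ?_, ?_, ?_, ?_⟩
  · rw [isCoprime_mul_unit_left hu]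
    exact hc
  · rw [Monic, leadingCoeff_mul, leadingCoeff_C, inv_mul_cancel₀ hl]
  · exact mul_ne_zero hu.ne_zero hr10
  · have h2 : aeval τ (C s1.leadingCoeff⁻¹) ≠ 0 := hne _ hu.ne_zero
    rw [map_mul, map_mul, mul_div_mul_left _ _ h2, hrs]
    rw [hr1, hs1, map_mul, map_mul, mul_div_mul_left _ _ (hne d hd0)]

theorem pf_HUN : T_HUN := by
  intro κ E _ _ _ τ ht hg
  have hne : ∀ f : κ[X], f ≠ 0 → aeval τ f ≠ 0 := fun f hf h0 =>
    hf ((transcendental_iff.mp ht) f h0)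
  have hfr := frac_form τ ht hg
  refine ⟨hfr, ?_, ?_⟩
  · intro π o o' hπ ho ho' h h'
    have hpoly : ∀ f : κ[X], f ≠ 0 → o (aeval τ f) = o' (aeval τ f) := by
      intro f hf
      obtain ⟨g, h1, h2⟩ := (FiniteMultiplicity.of_not_isUnit hπ.not_isUnit hf).exists_eq_pow_mul_and_not_dvd
      rw [h1, h _ _ h2, h' _ _ h2]
    funext x
    by_cases hx : x = 0
    · rw [hx, ho.zero, ho'.zero]
    obtain ⟨g, k, -, hk, hg0, hxe⟩ := hfr x hx
    rw [hxe, val_div ho (hne g hg0) (hne k hk.ne_zero), val_div ho' (hne g hg0) (hne k hk.ne_zero),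
      hpoly g hg0, hpoly k hk.ne_zero]
  · intro o o' ho ho' h h'
    funext x
    by_cases hx : x = 0
    · rw [hx, ho.zero, ho'.zero]
    obtain ⟨g, k, -, hk, hg0, hxe⟩ := hfr x hx
    rw [hxe, val_div ho (hne g hg0) (hne k hk.ne_zero), val_div ho' (hne g hg0) (hne k hk.ne_zero),
      h g hg0, h k hk.ne_zero, h' g hg0, h' k hk.ne_zero]

end Pool.Agent.H62.UNT
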