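import Pool.Agent.H62.UN.Targets

set_option autoImplicit false

namespace Pool.Agent.H62.UNT

open Polynomial Pool.Agent.H17.UN Pool.Agent.H62.UN

section

variable {k F : Type} [Field k] [Field F] [Algebra k F] {P Q : k[X]} {s y z : F}

theorem tr_s (h : CB P Q s y z) : Transcendental k s := h.ind.transcendental 0

theorem tr_z (h : CB P Q s y z) : Transcendental (ks k s) z := by
  have h1 := h.ind.transcendental_adjoin (s := {0}) (i := 1) (by simp)
  rw [IntermediateField.transcendental_adjoin_iff]
  have e : (![s, z] '' {0} : Set F) = {s} := by simp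
  have e1 : (![s, z] : Fin 2 → F) 1 = z := rfl
  rw [e1] at h1
  rw [e] at h1
  exact h1

theorem aeval_ne (h : CB P Q s y z) {f : k[X]} (hf : f ≠ 0) : aeval s f ≠ 0 := by
  intro h0
  exact hf ((transcendental_iff.mp (tr_s h)) f h0)

theorem aeval_mem (f : k[X]) (s : F) : aeval s f ∈ ks k s := by
  have h1 : Algebra.adjoin k {s} ≤ (ks k s).toSubalgebra :=
    IntermediateField.algebra_adjoin_le_adjoin k {s}
  exact h1 (aeval_mem_adjoin_singleton k s)

end

theorem pf_TAU : T_TAU := by
  intro k F _ _ _ _ P Q s y z h y₀ z₀ e hy0 hz0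
  have hP : P ≠ 0 := fun h0 => by
    have := h.sep; rw [h0, zero_mul] at this; exact this.ne_zero rfl
  have hQ : Q ≠ 0 := fun h0 => by
    have := h.sep; rw [h0, mul_zero] at this; exact this.ne_zero rfl
  have : CharZero F := charZero_of_injective_algebraMap (algebraMap k F).injective
  have hPs := aeval_ne h hP
  have hQs := aeval_ne h hQ
  have hys := aeval_ne h hy0
  have hzs := aeval_ne h hz0
  have he : aeval s y₀ ^ 2 = aeval s P + aeval s Q * aeval s z₀ ^ 2 := by
    have := congrArg (aeval s) e
    simpa using this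
  have hyz := h.eq
  have hzne : z - aeval s z₀ ≠ 0 := by
    intro h0
    have h1 : z = algebraMap (ks k s) F ⟨aeval s z₀, aeval_mem z₀ s⟩ := by
      rw [sub_eq_zero] at h0; exact h0
    refine tr_z h ?_
    rw [h1]
    exact isAlgebraic_algebraMap _
  obtain ⟨τ, hτ⟩ : ∃ τ : F, τ * (z - aeval s z₀) = y + aeval s y₀ :=
    ⟨(y + aeval s y₀) / (z - aeval s z₀), div_mul_cancel₀ _ hzne⟩
  have h2 : τ * (y - aeval s y₀) = aeval s Q * (z + aeval s z₀) := by
    have : (z - aeval s z₀) * (τ * (y - aeval s y₀)) =
        (z - aeval s z₀) * (aeval s Q * (z + aeval s z₀)) := by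
      linear_combination (y - aeval s y₀) * hτ + hyz - he
    exact mul_left_cancel₀ hzne this
  have fz : z * (τ ^ 2 - aeval s Q) =
      aeval s z₀ * τ ^ 2 + 2 * aeval s y₀ * τ + aeval s Q * aeval s z₀ := by
    linear_combination τ * hτ + h2
  have fy : y * (τ ^ 2 - aeval s Q) =
      aeval s y₀ * τ ^ 2 + 2 * aeval s Q * aeval s z₀ * τ + aeval s Q * aeval s y₀ := by
    linear_combination τ * h2 + aeval s Q * hτ
  have q0 : τ ^ 2 - aeval s Q ≠ 0 := by
    intro h0
    rw [h0, mul_zero] at fz
    have h3 : τ ^ 2 = aeval s Q := by rwa [sub_eq_zero] at h0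
    have h4 : aeval s y₀ * τ = -(aeval s Q * aeval s z₀) := by
      have : (2 : F) * (aeval s y₀ * τ) = 2 * (-(aeval s Q * aeval s z₀)) := by
        rw [h3] at fz
        linear_combination -fz
      exact mul_left_cancel₀ two_ne_zero this
    have h5 : aeval s Q * (aeval s y₀ ^ 2) = aeval s Q * (aeval s Q * aeval s z₀ ^ 2) := by
      have : (aeval s y₀ * τ) ^ 2 = (-(aeval s Q * aeval s z₀)) ^ 2 := by rw [h4]
      linear_combination this - aeval s y₀ ^ 2 * h3
    have h6 := mul_left_cancel₀ hQs h5
    apply hPs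
    linear_combination h6 - he
  have gen : IntermediateField.adjoin (ks k s) {τ} = ⊤ := by
    have hτm : τ ∈ IntermediateField.adjoin (ks k s) {τ} :=
      IntermediateField.mem_adjoin_simple_self _ τ
    have hc : ∀ f : k[X], aeval s f ∈ IntermediateField.adjoin (ks k s) {τ} := fun f =>
      IntermediateField.algebraMap_mem _ (⟨aeval s f, aeval_mem f s⟩ : ks k s)
    have h2m : (2 : F) ∈ IntermediateField.adjoin (ks k s) {τ} := by
      have := hc (C 2)
      simpa using this
    have hq : τ ^ 2 - aeval s Q ∈ IntermediateField.adjoin (ks k s) {τ} :=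
      sub_mem (pow_mem hτm 2) (hc Q)
    have hz : z ∈ IntermediateField.adjoin (ks k s) {τ} := by
      rw [(eq_div_iff q0).mpr fz]
      exact div_mem (add_mem (add_mem (mul_mem (hc _) (pow_mem hτm 2))
        (mul_mem (mul_mem h2m (hc _)) hτm)) (mul_mem (hc _) (hc _))) hq
    have hy : y ∈ IntermediateField.adjoin (ks k s) {τ} := by
      rw [(eq_div_iff q0).mpr fy]
      exact div_mem (add_mem (add_mem (mul_mem (hc _) (pow_mem hτm 2))
        (mul_mem (mul_mem (mul_mem h2m (hc _)) (hc _)) hτm)) (mul_mem (hc _) (hc _))) hq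
    have hs : s ∈ IntermediateField.adjoin (ks k s) {τ} := by
      have := hc X
      simpa using this
    have hle : IntermediateField.adjoin k {s, y, z} ≤
        (IntermediateField.adjoin (ks k s) {τ}).restrictScalars k := by
      rw [IntermediateField.adjoin_le_iff]
      intro x hx
      simp only [Set.mem_insert_iff, Set.mem_singleton_iff] at hx
      rcases hx with rfl | rfl | rfl
      · exact hs
      · exact hy
      · exact hz
    rw [h.gen] at hle
    rw [eq_top_iff]
    intro x _
    exact hle (show x ∈ (⊤ : IntermediateField k F) from trivial)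
  have tr : Transcendental (ks k s) τ := by
    intro ha
    have h3 : Algebra.IsAlgebraic (ks k s) (IntermediateField.adjoin (ks k s) {τ}) :=
      IntermediateField.isAlgebraic_adjoin_simple ha.isIntegral
    have h4 : z ∈ IntermediateField.adjoin (ks k s) {τ} := by rw [gen]; trivial
    have h5 := h3.isAlgebraic ⟨z, h4⟩
    have h6 : IsAlgebraic (ks k s) z := by
      have := h5.algebraMap (A := F)
      exact this
    exact tr_z h h6
  exact ⟨τ, h, e, hy0, hz0, hτ, q0, fz, fy, tr, gen⟩

end Pool.Agent.H62.UNT
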